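import Pool.Agent.H2.NL.Basic

set_option autoImplicit false
set_option linter.unusedSectionVars false

open Matrix

namespace Pool.Agent.H31.NL.NUM

open Pool.Agent.H2.NL

section

variable {K : Type} [Field K] [CharZero K] {I : Type} [Fintype I] [DecidableEq I]

theorem sws_mem {o : I → Bool} {η ω : Matrix I I K} {A : ℕ → Submodule ℚ (List I → K)}
    (hC : Calc o η ω A) (l : ℕ) (t : List I → K) (ht : t ∈ A l) (js : List ℕ)
    (hjs : ∀ j ∈ js, j + 2 ≤ 2 * l) : sws o js t ∈ A l := by
  induction js with
  | nil => exact ht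
  | cons j js ih =>
    show sw o j (sws o js t) ∈ A l
    exact hC.sw l j _ (ih fun i hi => hjs i (List.mem_cons_of_mem _ hi))
      (hjs j List.mem_cons_self)

theorem sum_mem {o : I → Bool} {η ω : Matrix I I K} {A : ℕ → Submodule ℚ (List I → K)}
    (hC : Calc o η ω A) (l : ℕ) (t : List I → K) (ht : t ∈ A l) (L : List (List ℕ))
    (hL : ∀ js ∈ L, ∀ j ∈ js, j + 2 ≤ 2 * l) :
    (fun w => (L.map fun js => sws o js t w).sum) ∈ A l := by
  induction L with
  | nil => exact (A l).zero_mem
  | cons js L ih =>
    have e : (fun w => ((js :: L).map fun js => sws o js t w).sum) =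
        sws o js t + fun w => (L.map fun js => sws o js t w).sum := by
      funext w
      simp
    rw [e]
    exact (A l).add_mem (sws_mem hC l t ht js (hL js List.mem_cons_self))
      (ih fun i hi => hL i (List.mem_cons_of_mem _ hi))

theorem zip_prod (F : Form K I) (a : I) (ha : F.o a = false) : ∀ (v : List I),
    (List.zipWith (fun x b => F.η x b) v (List.replicate v.length a)).prod =
      if v = List.replicate v.length (F.st a) then 1 else 0 := by
  intro v
  induction v with
  | nil => simp
  | cons x v ih =>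
    rw [List.length_cons, List.replicate_succ, List.zipWith_cons_cons, List.prod_cons, ih,
      List.replicate_succ]
    have h1 : F.η x a = if x = F.st a then 1 else 0 := by
      rw [Form.η, Matrix.of_apply]
      by_cases h : x = F.st a
      · have h' : a = F.st x := by rw [h, F.st_st]
        rw [if_pos h', if_pos h, h]
        exact F.c_even _ (by rw [F.o_st, ha])
      · rw [if_neg h, if_neg]
        intro h'
        exact h (by rw [h', F.st_st])
    rw [h1]
    by_cases h : x = F.st a
    · by_cases h2 : v = List.replicate v.length (F.st a)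
      · rw [if_pos h, if_pos h2, if_pos (by rw [h]; congr 1), one_mul]
      · rw [if_pos h, if_neg h2, if_neg, one_mul]
        intro h3
        exact h2 (List.cons.inj h3).2
    · rw [if_neg h, zero_mul, if_neg]
      intro h3
      exact h (List.cons.inj h3).1

theorem op_replicate (F : Form K I) (l : ℕ) (Z : List I → K) (a : I) (ha : F.o a = false)
    (u : List.Vector I l) (r : List.Vector I l) (hr : r.1 = List.replicate l a) :
    op F.η l Z u r = Z (u.1 ++ List.replicate l (F.st a)) := by
  have hlen : (List.replicate l (F.st a)).length = l := List.length_replicate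
  show (∑ v : List.Vector I l, Z (u.1 ++ v.1) *
    (List.zipWith (fun a b => F.η a b) v.1.reverse r.1).prod) = _
  refine (Finset.sum_eq_single (⟨List.replicate l (F.st a), hlen⟩ : List.Vector I l)
    ?_ ?_).trans ?_
  · intro v _ hv
    rw [hr]
    have h := zip_prod F a ha v.1.reverse
    rw [List.length_reverse, v.2] at h
    rw [h, if_neg, mul_zero]
    intro h2
    apply hv
    apply Subtype.ext
    show v.1 = List.replicate l (F.st a)
    have h3 := congrArg List.reverse h2
    rwa [List.reverse_reverse, List.reverse_replicate] at h3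
  · intro h
    exact absurd (Finset.mem_univ (α := List.Vector I l) _) h
  · rw [hr]
    have h := zip_prod F a ha (List.replicate l (F.st a)).reverse
    rw [List.reverse_replicate, hlen, if_pos rfl] at h
    show Z (u.1 ++ List.replicate l (F.st a)) *
      (List.zipWith (fun a b => F.η a b) (List.replicate l (F.st a)).reverse _).prod = _
    rw [List.reverse_replicate, h, mul_one]

theorem pow_col {J : Type} [Fintype J] [DecidableEq J] (M : Matrix J J K) (r : J) (c : K)
    (h0 : ∀ u, u ≠ r → M u r = 0) (h1 : M r r = c) (N : ℕ) : (M ^ N) r r = c ^ N := by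
  induction N with
  | zero => simp
  | succ N ih =>
    rw [pow_succ, Matrix.mul_apply, Finset.sum_eq_single r, ih, h1, pow_succ]
    · intro v _ hv
      rw [h0 v hv, mul_zero]
    · intro h
      exact absurd (Finset.mem_univ _) h

end

theorem pf_NUM (hSDM : T_SDM) (hREC : T_REC) (hSYM : T_SYM) (hTRP : T_TRP) (hZTR : T_ZTR)
    (hEIG : T_EIG) (hMLG : T_MLG) (hIDM : T_IDM) : T_NUM := by
  intro K _ _ V P _ _ _ _ F A hS hy
  obtain ⟨y₀, hy₀⟩ := hy
  obtain ⟨_, l, hl1, hl2, hsd⟩ := hSDM K V P F A hS
  obtain ⟨L, hnil, hbd, hsym⟩ := hSYM K (V ⊕ P) F.o (2 * l)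
  have hC := hS.calculus
  obtain ⟨-, hid, -⟩ := hMLG K (V ⊕ P) F A hC l
  obtain ⟨hE1, ⟨c, hc1, hc⟩, hE3⟩ := hEIG K (V ⊕ P) F l L (Sum.inr y₀) hnil hbd hy₀
  obtain ⟨hZ1, hZ2⟩ := hZTR K (V ⊕ P) F l L hbd
  have hlen : (L.length : K) ≠ 0 := by
    have : 0 < L.length := List.length_pos_of_mem hnil
    exact_mod_cast this.ne'
  have hZA := sum_mem hC l _ hid L hbd
  refine ⟨l, hl2, hIDM K (V ⊕ P) F A hC l (fun w => (L.map fun js =>
    sws F.o js (idt F.ω l) w).sum) hZA hE3 ?_ ?_⟩
  · intro N hN
    have hr : (List.replicate l (Sum.inr y₀ : V ⊕ P)).length = l := List.length_replicate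
    have h := pow_col (op F.η l (fun w => (L.map fun js =>
      sws F.o js (idt F.ω l) w).sum)) ⟨List.replicate l (Sum.inr y₀), hr⟩ (c : K) (fun u hu => by
        rw [op_replicate F l _ (Sum.inr y₀) hy₀ u _ rfl]
        by_contra h0
        exact hu (Subtype.ext (hE1 u.1 u.2 h0)))
        (by rw [op_replicate F l _ (Sum.inr y₀) hy₀ _ _ rfl]; exact hc) N
    rw [hN] at h
    have h2 : (c : K) ^ N = 0 := h.symm
    have h3 : (c : K) ≠ 0 := by
      have : 0 < c := hc1
      exact_mod_cast this.ne'
    exact pow_ne_zero N h3 h2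
  · intro y hyA
    rw [hTRP K (V ⊕ P) F l]
    have hXA := sum_mem hC l y hyA L hbd
    have h1 := hZ1 _ (hsym y)
    have h2 := hZ2 y _ (hsym (idt F.ω l))
    rw [hREC K V P F A hS l _ hl1 hsd hXA (hsym y), mul_zero] at h1
    rw [h1] at h2
    exact (mul_eq_zero.1 h2.symm).resolve_left hlen

end Pool.Agent.H31.NL.NUM
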